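import Mathlib
import Pool.Agent.TH343.PR.Final

/-!
# Weil numbers with prescribed p-rank over the prime field

For every prime `p ≥ 17` and all `1 ≤ f < g` there is an irreducible Weil `p`-polynomial of degree
`2g` with exactly `f` unit roots, such that no power of a root generates a smaller field.
By Honda-Tate theory it is the characteristic polynomial of an absolutely simple abelian variety
over `F_p` of dimension `g` and `p`-rank `f`; so the smallest field of definition is `F_p`.
-/

set_option autoImplicit false

namespace Pool.Agent.Results.MP_e32a7e_nt.PrimeFieldOfDefinition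

open Polynomial

/-- For every prime `p ≥ 17` and all `1 ≤ f < g` there is a monic integer polynomial `P` of degree
`2g`, irreducible over the rationals, all of whose complex roots have absolute value `√p`, whose
coefficients of degree less than `2g - f` are divisible by `p` while the coefficient of degree
`2g - f` is not, and such that `ℚ(xⁿ) = ℚ(x)` for every complex root `x` and every `n ≥ 1`. -/
theorem result (p g f : ℕ) (hp : p.Prime) (hp17 : 17 ≤ p) (hf : 1 ≤ f) (hfg : f < g) :
    ∃ P : ℤ[X], P.Monic ∧ P.natDegree = 2 * g ∧ Irreducible (P.map (Int.castRingHom ℚ)) ∧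
      (∀ x : ℂ, aeval x P = 0 → ‖x‖ = Real.sqrt p) ∧
      (∀ i < 2 * g - f, (p : ℤ) ∣ P.coeff i) ∧ ¬ (p : ℤ) ∣ P.coeff (2 * g - f) ∧
      (∀ x : ℂ, aeval x P = 0 → ∀ n : ℕ, 1 ≤ n →
        IntermediateField.adjoin ℚ {x ^ n} = IntermediateField.adjoin ℚ {x}) :=
  Pool.Agent.TH343.PR.final hp hp17 hf hfg

end Pool.Agent.Results.MP_e32a7e_nt.PrimeFieldOfDefinition
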